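import Mathlib
import Pool.Agent.H381R3.CIP

/-!
# MP_0e7155_gt : connected sets consisting of non-cut points

Let `X` be a metric space in which any two connected sets have a connected intersection and let
`B` be a connected set of points none of which cuts `X`. For `p ≠ q` in `B` the set `B \ {p, q}` is
a set of non-cut points whose removal disconnects `X`. We show that such a `B` has to be
biconnected, in a strong sense: any two nondegenerate connected subsets of `B` meet in a
nondegenerate connected set.
-/

set_option autoImplicit false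

open Set Topology

universe u

namespace Pool.Agent.H832R3.CIPX

open Pool.Agent.H381R3.CIP

variable {X : Type u} [MetricSpace X]

/-- Two distinct points do not form a connected set. -/
lemma not_preconnected_pair {p q : X} (h : p ≠ q) : ¬ IsPreconnected ({p, q} : Set X) := by
  intro hc
  have hs : ({p, q} : Set X).Subsingleton := by
    have hf : ({p, q} : Set X).Countable := (Set.toFinite _).countable
    exact hf.isTotallyDisconnected _ subset_rfl hc
  exact h (hs (by simp) (by simp))

/-- Removing a subsingleton of non-cut points from a connected set. -/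
lemma preconnected_diff (hCIP : ∀ A B : Set X, IsPreconnected A → IsPreconnected B →
    IsPreconnected (A ∩ B)) {S P : Set X} (hS : IsPreconnected S) (hP : P.Subsingleton)
    (hcut : ∀ b ∈ P, IsPreconnected ({b}ᶜ : Set X)) : IsPreconnected (S \ P) := by
  rcases hP.eq_empty_or_singleton with rfl | ⟨b, rfl⟩
  · rwa [diff_empty]
  · exact hCIP _ _ hS (hcut b rfl)

/-- A nondegenerate connected set minus a point is nondegenerate. -/
lemma nontrivial_diff {S P : Set X} (hS : IsPreconnected S) (hn : S.Nontrivial)
    (hP : P.Subsingleton) (hc : IsPreconnected (S \ P)) : (S \ P).Nontrivial := by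
  by_contra hcon
  rw [Set.not_nontrivial_iff] at hcon
  have hcount : S.Countable :=
    (hP.finite.countable.union hcon.finite.countable).mono (fun x hx => by
      by_cases h : x ∈ P
      · exact Or.inl h
      · exact Or.inr ⟨hx, h⟩)
  exact (Set.not_subsingleton_iff.2 hn) (hcount.isTotallyDisconnected _ subset_rfl hS)

/-- A connected set of non-cut points is not the union of two disjoint nondegenerate connected
sets. -/
lemma no_partition (hCIP : ∀ A B : Set X, IsPreconnected A → IsPreconnected B →
    IsPreconnected (A ∩ B)) {K L : Set X} (hK : IsPreconnected K) (hL : IsPreconnected L)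
    (hKL : Disjoint K L) (hB : IsPreconnected (K ∪ L)) (hKn : K.Nontrivial) (hLn : L.Nontrivial)
    (hcut : ∀ b ∈ K ∪ L, IsPreconnected ({b}ᶜ : Set X)) : False := by
  have hsub : ∀ {K L : Set X}, IsPreconnected K → IsPreconnected L → Disjoint K L →
      (closure K ∩ L).Subsingleton := by
    intro K L hK hL hKL p hp q hq
    by_contra hpq
    have h1 : IsPreconnected (K ∪ {p, q}) := by
      refine hK.subset_closure subset_union_left ?_
      rintro x (hx | hx)
      · exact subset_closure hx
      · rcases hx with rfl | hx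
        · exact hp.1
        · rw [mem_singleton_iff] at hx
          exact hx ▸ hq.1
    have h2 := hCIP _ _ h1 hL
    have h3 : (K ∪ {p, q}) ∩ L = {p, q} := by
      ext x
      constructor
      · rintro ⟨hx | hx, hxL⟩
        · exact absurd hxL (fun h => Set.disjoint_left.1 hKL hx h)
        · exact hx
      · intro hx
        refine ⟨Or.inr hx, ?_⟩
        rcases hx with rfl | hx
        · exact hp.2
        · rw [mem_singleton_iff] at hx
          exact hx ▸ hq.2
    rw [h3] at h2
    exact not_preconnected_pair hpq h2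
  have hP := hsub hK hL hKL
  have hQ := hsub hL hK hKL.symm
  set P := closure K ∩ L with hPdef
  set Q := closure L ∩ K with hQdef
  have hD1 : IsPreconnected ((K ∪ L) \ P) :=
    preconnected_diff hCIP hB hP (fun b hb => hcut b (Or.inr hb.2))
  have hD2 : IsPreconnected (((K ∪ L) \ P) \ Q) :=
    preconnected_diff hCIP hD1 hQ (fun b hb => hcut b (Or.inl hb.2))
  have hKQ : (K \ Q).Nontrivial := nontrivial_diff hK hKn hQ
    (preconnected_diff hCIP hK hQ (fun b hb => hcut b (Or.inl hb.2)))
  have hLP : (L \ P).Nontrivial := nontrivial_diff hL hLn hP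
    (preconnected_diff hCIP hL hP (fun b hb => hcut b (Or.inr hb.2)))
  have heq : ((K ∪ L) \ P) \ Q = (K \ Q) ∪ (L \ P) := by
    ext x
    constructor
    · rintro ⟨⟨hx | hx, hxP⟩, hxQ⟩
      · exact Or.inl ⟨hx, hxQ⟩
      · exact Or.inr ⟨hx, hxP⟩
    · rintro (⟨hx, hxQ⟩ | ⟨hx, hxP⟩)
      · exact ⟨⟨Or.inl hx, fun h => Set.disjoint_left.1 hKL hx h.2⟩, hxQ⟩
      · exact ⟨⟨Or.inr hx, hxP⟩, fun h => Set.disjoint_left.1 hKL h.2 hx⟩
  rw [heq] at hD2
  have hdiff : ((K \ Q) ∪ (L \ P)) \ (K \ Q) ⊆ L \ P := by
    rintro x ⟨hx | hx, hx2⟩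
    · exact absurd hx hx2
    · exact hx
  have hall := no_part hD2 subset_union_left hKQ.nonempty (by
      rw [Set.disjoint_left]
      intro x hx hx2
      have h1 := hdiff hx2
      exact h1.2 ⟨closure_mono diff_subset hx, h1.1⟩) (by
      rw [Set.disjoint_left]
      intro x hx hx2
      have h1 : x ∈ closure L := closure_mono (hdiff.trans diff_subset) hx2
      exact hx.2 ⟨h1, hx.1⟩)
  obtain ⟨y, hy⟩ := hLP.nonempty
  exact Set.disjoint_left.1 hKL (hall (Or.inr hy)).1 hy.1

/-- A connected set of non-cut points contains no two disjoint nondegenerate connected sets. -/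
lemma no_disjoint (hCIP : ∀ A B : Set X, IsPreconnected A → IsPreconnected B →
    IsPreconnected (A ∩ B)) {B : Set X} (hB : IsPreconnected B)
    (hcut : ∀ b ∈ B, IsPreconnected ({b}ᶜ : Set X)) {D₁ D₂ : Set X} (h₁ : D₁ ⊆ B) (h₂ : D₂ ⊆ B)
    (hc₁ : IsPreconnected D₁) (hc₂ : IsPreconnected D₂) (hn₁ : D₁.Nontrivial)
    (hn₂ : D₂.Nontrivial) (hdis : Disjoint D₁ D₂) : False := by
  obtain ⟨x, hx⟩ := hn₂.nonempty
  have hxF : x ∈ B \ D₁ := ⟨h₂ hx, fun h => Set.disjoint_left.1 hdis h hx⟩
  set K : Set X := connectedComponentIn (B \ D₁) x with hKdef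
  have hK : IsPreconnected K := isPreconnected_connectedComponentIn
  have hKsub : K ⊆ B \ D₁ := connectedComponentIn_subset _ _
  have hDK : D₂ ⊆ K := hc₂.subset_connectedComponentIn hx
    (fun y hy => ⟨h₂ hy, fun h => Set.disjoint_left.1 hdis h hy⟩)
  have hKne : K.Nonempty := ⟨x, hDK hx⟩
  have hKL : Disjoint K (B \ K) := disjoint_sdiff_right
  have hun : K ∪ (B \ K) = B := union_diff_cancel (hKsub.trans diff_subset)
  have hL : IsPreconnected (B \ K) := by
    by_contra hnot
    have hD1L : D₁ ⊆ B \ K := fun y hy => ⟨h₁ hy, fun h => (hKsub h).2 hy⟩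
    obtain ⟨W, hWne, hWsub, hW1, hW2⟩ := exists_part hnot hc₁ hD1L
    -- `K ∪ W` is connected
    have hKW : IsPreconnected (K ∪ W) := by
      by_contra hnot2
      obtain ⟨Z, hZne, hZsub, hZ1, hZ2⟩ := exists_part hnot2 hK subset_union_left
      have hZW : Z ⊆ W := by
        intro y hy
        rcases (hZsub hy).1 with h | h
        · exact absurd h (hZsub hy).2
        · exact h
      have hZB : Z ⊆ B := fun y hy => ((hWsub (hZW hy)).1).1
      have hcompl : B \ Z ⊆ ((K ∪ W) \ Z) ∪ ((B \ K) \ W) := by
        rintro y ⟨hyB, hyZ⟩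
        by_cases hyK : y ∈ K
        · exact Or.inl ⟨Or.inl hyK, hyZ⟩
        · by_cases hyW : y ∈ W
          · exact Or.inl ⟨Or.inr hyW, hyZ⟩
          · exact Or.inr ⟨⟨hyB, hyK⟩, hyW⟩
      have hall := no_part hB hZB hZne (by
          rw [Set.disjoint_left]
          intro y hy hy2
          rcases hcompl hy2 with h | h
          · exact Set.disjoint_left.1 hZ1 hy h
          · exact Set.disjoint_left.1 hW1 (closure_mono hZW hy) h) (by
          rw [Set.disjoint_left]
          intro y hy hy2
          have h3 := closure_mono hcompl hy2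
          rw [closure_union] at h3
          rcases h3 with h | h
          · exact Set.disjoint_left.1 hZ2 hy h
          · exact Set.disjoint_left.1 hW2 (hZW hy) h)
      obtain ⟨k, hk⟩ := hKne
      exact (hZsub (hall (hKsub hk).1)).2 hk
    have hsub : K ∪ W ⊆ K := by
      refine hKW.subset_connectedComponentIn (Or.inl (hDK hx)) ?_
      rintro y (hy | hy)
      · exact hKsub hy
      · exact ⟨((hWsub hy).1).1, (hWsub hy).2⟩
    obtain ⟨w, hw⟩ := hWne
    exact ((hWsub hw).1).2 (hsub (Or.inr hw))
  refine no_partition hCIP hK hL hKL (by rwa [hun]) (hn₂.mono hDK)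
    (hn₁.mono fun y hy => ⟨h₁ hy, fun h => (hKsub h).2 hy⟩) (by rwa [hun])

/-- Let `X` be a metric space with the connected intersection property and let `B` be a connected
set of non-cut points of `X`. Removing from `X` all points of `B` except two of them leaves a set
that is not connected; and any two nondegenerate connected subsets of `B` have a nondegenerate
intersection. -/
theorem connected_noncut_sets (X : Type u) [MetricSpace X]
    (hCIP : ∀ A B : Set X, IsPreconnected A → IsPreconnected B → IsPreconnected (A ∩ B))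
    (B : Set X) (hB : IsPreconnected B) (hcut : ∀ b ∈ B, IsPreconnected ({b}ᶜ : Set X)) :
    (∀ p ∈ B, ∀ q ∈ B, p ≠ q → ¬ IsPreconnected ((B \ {p, q})ᶜ : Set X)) ∧
    ∀ A₁ A₂ : Set X, A₁ ⊆ B → A₂ ⊆ B → IsPreconnected A₁ → IsPreconnected A₂ →
      A₁.Nontrivial → A₂.Nontrivial → (A₁ ∩ A₂).Nontrivial := by
  refine ⟨?_, ?_⟩
  · intro p hp q hq hpq hc
    have h1 := hCIP _ _ hc hB
    have h2 : (B \ {p, q})ᶜ ∩ B = {p, q} := by
      ext x
      constructor
      · rintro ⟨hx, hxB⟩
        by_contra h
        exact hx ⟨hxB, h⟩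
      · intro hx
        refine ⟨fun h => h.2 hx, ?_⟩
        rcases hx with rfl | hx
        · exact hp
        · rw [mem_singleton_iff] at hx
          exact hx ▸ hq
    rw [h2] at h1
    exact not_preconnected_pair hpq h1
  · intro A₁ A₂ h₁ h₂ hc₁ hc₂ hn₁ hn₂
    by_contra hnot
    rw [Set.not_nontrivial_iff] at hnot
    have hcutP : ∀ b ∈ A₁ ∩ A₂, IsPreconnected ({b}ᶜ : Set X) := fun b hb => hcut b (h₁ hb.1)
    have hp₁ := preconnected_diff hCIP hc₁ hnot hcutP
    have hp₂ := preconnected_diff hCIP hc₂ hnot hcutP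
    have ht₁ := nontrivial_diff hc₁ hn₁ hnot hp₁
    have ht₂ := nontrivial_diff hc₂ hn₂ hnot hp₂
    refine no_disjoint hCIP hB hcut (diff_subset.trans h₁) (diff_subset.trans h₂) hp₁ hp₂ ht₁ ht₂ ?_
    rw [Set.disjoint_left]
    rintro x ⟨hx1, hx2⟩ ⟨hx3, -⟩
    exact hx2 ⟨hx1, hx3⟩

end Pool.Agent.H832R3.CIPX
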